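import Pool.Agent.W58.GU.Stm

set_option autoImplicit false

/-!
Project GU: the Banach space exists.
-/

namespace Pool.Agent.W227.GU

open Finset Pool.Agent.W58.GU
open scoped BoundedContinuousFunction

/-- the index set of the ambient space of bounded functions -/
def Ix (P : Par) : Type := ℕ ⊕ {f : ℕ →₀ ℚ // InK P f}

instance (P : Par) : TopologicalSpace (Ix P) := ⊥
instance (P : Par) : DiscreteTopology (Ix P) := ⟨rfl⟩

/-- a functional as an index -/
def ir (P : Par) (f : {f : ℕ →₀ ℚ // InK P f}) : Ix P := Sum.inr f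

/-- the values of the basis vectors -/
noncomputable def Ev (P : Par) : ℕ ⊕ ℕ → Ix P → ℝ
  | Sum.inl n, Sum.inl m => if m = n then 1 else 0
  | Sum.inl _, Sum.inr _ => 0
  | Sum.inr _, Sum.inl _ => 0
  | Sum.inr a, Sum.inr f => (f.1 a : ℝ)

theorem Ev_bd (P : Par) (i : ℕ ⊕ ℕ) (x : Ix P) : ‖Ev P i x‖ ≤ 1 := by
  rcases i with n | a <;> rcases x with m | f
  · show ‖(if m = n then (1 : ℝ) else 0)‖ ≤ 1
    split_ifs <;> simp
  · show ‖(0 : ℝ)‖ ≤ 1
    simp
  · show ‖(0 : ℝ)‖ ≤ 1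
    simp
  · show ‖(f.1 a : ℝ)‖ ≤ 1
    obtain ⟨w, hw⟩ := f.2
    rw [Real.norm_eq_abs, ← Rat.cast_abs]
    exact_mod_cast hw.coord.1 a

/-- the basis vectors -/
noncomputable def E (P : Par) (i : ℕ ⊕ ℕ) : Ix P →ᵇ ℝ :=
  BoundedContinuousFunction.ofNormedAddCommGroupDiscrete (Ev P i) 1 (Ev_bd P i)

theorem E_apply (P : Par) (i : ℕ ⊕ ℕ) (x : Ix P) : E P i x = Ev P i x := rfl

/-- the index of a coordinate -/
noncomputable def jx (P : Par) : ℕ ⊕ ℕ → Ix P
  | Sum.inl n => Sum.inl n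
  | Sum.inr a => Sum.inr ⟨Finsupp.single a 1, InK.single P a⟩

theorem E_jx (P : Par) (i k : ℕ ⊕ ℕ) : E P k (jx P i) = if i = k then (1 : ℝ) else 0 := by
  rw [E_apply]
  rcases i with n | a <;> rcases k with m | b
  · show (if n = m then (1 : ℝ) else 0) = _
    simp
  · show (0 : ℝ) = _
    simp
  · show (0 : ℝ) = _
    simp
  · show (((Finsupp.single a (1 : ℚ)) b : ℚ) : ℝ) = _
    rw [Finsupp.single_apply]
    by_cases h : a = b
    · simp [h]
    · simp [h]

/-- the space -/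
noncomputable def Xs (P : Par) : Submodule ℝ (Ix P →ᵇ ℝ) :=
  (Submodule.span ℝ (Set.range (E P))).topologicalClosure

instance (P : Par) : CompleteSpace (Xs P) :=
  (Submodule.isClosed_topologicalClosure _).completeSpace_coe

theorem E_mem (P : Par) (i : ℕ ⊕ ℕ) : E P i ∈ Xs P :=
  Submodule.le_topologicalClosure _ (Submodule.subset_span ⟨i, rfl⟩)

noncomputable def ee (P : Par) (i : ℕ ⊕ ℕ) : Xs P := ⟨E P i, E_mem P i⟩

noncomputable def ee' (P : Par) (i : ℕ ⊕ ℕ) : Xs P →L[ℝ] ℝ :=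
  (BoundedContinuousFunction.evalCLM ℝ (jx P i)).comp (Xs P).subtypeL

theorem ee'_apply (P : Par) (i : ℕ ⊕ ℕ) (x : Xs P) : ee' P i x = x.1 (jx P i) := rfl

theorem ee_bi (P : Par) (i k : ℕ ⊕ ℕ) : ee' P i (ee P k) = if i = k then (1 : ℝ) else 0 :=
  E_jx P i k

/-- the value at a functional -/
theorem val_eq (P : Par) (f : {f : ℕ →₀ ℚ // InK P f}) (x : Ix P →ᵇ ℝ) (hx : x ∈ Xs P) :
    x (ir P f) = pr f.1 (fun a => x (jx P (Sum.inr a))) := by
  set Φ : (Ix P →ᵇ ℝ) →L[ℝ] ℝ := BoundedContinuousFunction.evalCLM ℝ (ir P f) -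
    ∑ a ∈ f.1.support, (f.1 a : ℝ) • BoundedContinuousFunction.evalCLM ℝ (jx P (Sum.inr a)) with hΦ
  have hΦa : ∀ y : Ix P →ᵇ ℝ, Φ y = y (ir P f) - pr f.1 (fun a => y (jx P (Sum.inr a))) := by
    intro y
    rw [hΦ]
    simp only [sub_apply, _root_.sum_apply, smul_apply, smul_eq_mul]
    rfl
  have hker : Xs P ≤ LinearMap.ker Φ.toLinearMap := by
    apply Submodule.topologicalClosure_minimal
    · rw [Submodule.span_le]
      rintro _ ⟨i, rfl⟩
      show Φ (E P i) = 0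
      rw [hΦa, E_apply, sub_eq_zero]
      simp only [E_jx]
      rcases i with n | b
      · show (0 : ℝ) = _
        have : (fun a : ℕ => if (Sum.inr a : ℕ ⊕ ℕ) = Sum.inl n then (1 : ℝ) else 0) = 0 := by
          funext a; simp
        rw [this, pr_zero_right]
      · show (f.1 b : ℝ) = _
        unfold pr
        simp only [Sum.inr.injEq, mul_ite, mul_one, mul_zero, Finset.sum_ite_eq',
          Finsupp.mem_support_iff]
        by_cases h : f.1 b = 0
        · simp [h]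
        · simp [h]
    · exact ContinuousLinearMap.isClosed_ker Φ
  have h1 : Φ x = 0 := hker hx
  rw [hΦa, sub_eq_zero] at h1
  exact h1

theorem val_eq' (P : Par) (f : ℕ →₀ ℚ) (hf : InK P f) (x : Xs P) :
    x.1 (ir P ⟨f, hf⟩) = pr f (fun a => ee' P (Sum.inr a) x) :=
  val_eq P ⟨f, hf⟩ x.1 x.2

theorem nn1 (P : Par) (x : Xs P) (n : ℕ) : |ee' P (Sum.inl n) x| ≤ ‖x‖ := by
  rw [ee'_apply, ← Real.norm_eq_abs]
  exact BoundedContinuousFunction.norm_coe_le_norm x.1 _

theorem nn2 (P : Par) (x : Xs P) (f : ℕ →₀ ℚ) (hf : InK P f) :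
    |pr f (fun a => ee' P (Sum.inr a) x)| ≤ ‖x‖ := by
  rw [← val_eq' P f hf x, ← Real.norm_eq_abs]
  exact BoundedContinuousFunction.norm_coe_le_norm x.1 _

theorem nn3 (P : Par) (x : Xs P) (C : ℝ) (hC : 0 ≤ C) (h1 : ∀ n, |ee' P (Sum.inl n) x| ≤ C)
    (h2 : ∀ f, InK P f → |pr f (fun a => ee' P (Sum.inr a) x)| ≤ C) : ‖x‖ ≤ C := by
  show ‖x.1‖ ≤ C
  rw [BoundedContinuousFunction.norm_le hC]
  intro i
  rcases i with n | f
  · rw [Real.norm_eq_abs]
    exact h1 n
  · rw [Real.norm_eq_abs]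
    have h3 := val_eq' P f.1 f.2 x
    show |x.1 (ir P f)| ≤ C
    rw [h3]
    exact h2 f.1 f.2

theorem lat (P : Par) {x y : Xs P} (h : ∀ i, |ee' P i y| ≤ |ee' P i x|) : ‖y‖ ≤ ‖x‖ := by
  refine nn3 P y _ (norm_nonneg x) (fun n => le_trans (h _) (nn1 P x n)) (fun f hf => ?_)
  obtain ⟨w, hw⟩ := hf
  obtain ⟨g, hg, -, hle⟩ := hw.lattice (fun a => ee' P (Sum.inr a) x)
    (fun a => ee' P (Sum.inr a) y) (fun a => h _)
  exact le_trans hle (le_trans (le_abs_self _) (nn2 P x g ⟨w, hg⟩))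

/-- partial sums -/
noncomputable def SF (P : Par) (F : Finset (ℕ ⊕ ℕ)) (x : Xs P) : Xs P :=
  ∑ i ∈ F, ee' P i x • ee P i

theorem ee'_SF (P : Par) (F : Finset (ℕ ⊕ ℕ)) (x : Xs P) (i : ℕ ⊕ ℕ) :
    ee' P i (SF P F x) = if i ∈ F then ee' P i x else 0 := by
  unfold SF
  rw [map_sum]
  simp only [map_smul, ee_bi, smul_eq_mul, mul_ite, mul_one, mul_zero]
  rw [Finset.sum_ite_eq]

theorem SF_norm (P : Par) (F : Finset (ℕ ⊕ ℕ)) (x : Xs P) : ‖SF P F x‖ ≤ ‖x‖ := by
  apply lat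
  intro i
  rw [ee'_SF]
  split_ifs
  · exact le_refl _
  · simp

theorem SF_sub (P : Par) (F : Finset (ℕ ⊕ ℕ)) (x y : Xs P) :
    SF P F (x - y) = SF P F x - SF P F y := by
  have h := Finset.sum_sub_distrib (s := F) (fun i => ee' P i x • ee P i)
    (fun i => ee' P i y • ee P i)
  unfold SF
  refine Eq.trans ?_ h
  apply Finset.sum_congr rfl
  intro i _
  have h2 : ee' P i (x - y) = ee' P i x - ee' P i y := (ee' P i).map_sub x y
  rw [h2]
  exact sub_smul (ee' P i x) (ee' P i y) (ee P i)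

theorem hsum (P : Par) (x : Xs P) : HasSum (fun i => ee' P i x • ee P i) x := by
  classical
  have key : Filter.Tendsto (fun F : Finset (ℕ ⊕ ℕ) => SF P F x) Filter.atTop (nhds x) := by
    rw [Metric.tendsto_atTop]
    intro ε hε
    have hx : x.1 ∈ closure ((Submodule.span ℝ (Set.range (E P)) : Submodule ℝ (Ix P →ᵇ ℝ)) :
        Set (Ix P →ᵇ ℝ)) := x.2
    obtain ⟨y, hy, hxy⟩ := Metric.mem_closure_iff.1 hx (ε / 2) (by linarith)
    obtain ⟨c, hc⟩ := Finsupp.mem_span_range_iff_exists_finsupp.1 hy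
    set y' : Xs P := ∑ i ∈ c.support, c i • ee P i with hy'
    have hyy : (y' : Ix P →ᵇ ℝ) = y := by
      rw [hy', ← hc]
      simp only [Submodule.coe_sum, Submodule.coe_smul, Finsupp.sum]
      rfl
    have hco : ∀ i, ee' P i y' = c i := by
      intro i
      rw [hy', map_sum]
      simp only [map_smul, ee_bi, smul_eq_mul, mul_ite, mul_one, mul_zero]
      rw [Finset.sum_ite_eq]
      by_cases h : i ∈ c.support
      · rw [if_pos h]
      · rw [if_neg h]
        rw [Finsupp.notMem_support_iff] at h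
        exact h.symm
    refine ⟨c.support, fun F hF => ?_⟩
    have hSy : SF P F y' = y' := by
      unfold SF
      simp only [hco]
      rw [hy']
      symm
      apply Finset.sum_subset hF
      intro i _ hi
      rw [Finsupp.notMem_support_iff] at hi
      rw [hi, zero_smul]
    have h1 : SF P F x - x = SF P F (x - y') - (x - y') := by
      rw [SF_sub, hSy]; abel
    have h2 : ‖x - y'‖ < ε / 2 := by
      have : ‖x - y'‖ = dist x.1 y := by
        rw [dist_eq_norm, ← hyy]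
        rfl
      rw [this]
      exact hxy
    rw [dist_eq_norm (SF P F x) x, h1]
    calc ‖SF P F (x - y') - (x - y')‖ ≤ ‖SF P F (x - y')‖ + ‖x - y'‖ :=
          norm_sub_le (SF P F (x - y')) (x - y')
      _ ≤ ‖x - y'‖ + ‖x - y'‖ := by
          have := SF_norm P F (x - y')
          linarith
      _ < ε := by linarith
  exact key

theorem mod : S_MOD := by
  intro P
  refine ⟨Xs P, inferInstance, inferInstance, inferInstance, ⟨?_⟩⟩
  exact
    { e := ee P
      e' := ee' P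
      bi := ee_bi P
      hs := hsum P
      n1 := nn1 P
      n2 := nn2 P
      n3 := nn3 P }

end Pool.Agent.W227.GU
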